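import Pool.Agent.H902R3.XI.Stmts

/-!
# XI-PROJECT (MP_023270_nt): Task M1 (the Gaussian coefficients)
-/

set_option autoImplicit false

open Complex MeasureTheory Filter Topology Set Metric
open scoped Real ENNReal

namespace Pool.Agent.H902R3.XI

namespace M1x

theorem cf_eq (τ μ : ℝ) (n : ℕ) : cf τ μ n = (n : ℝ) ^ (-(1 / 2) : ℝ) *
    (Real.exp (τ * μ ^ 2) * Real.exp (-(τ * (Real.log n - μ) ^ 2))) := by
  unfold cf
  rw [← Real.exp_add]
  congr 2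
  ring

theorem cf_nonneg (τ μ : ℝ) (n : ℕ) : 0 ≤ cf τ μ n := by
  unfold cf
  positivity

theorem cf_sq (τ μ : ℝ) (n : ℕ) (hn : 1 ≤ n) : cf τ μ n ^ 2 = (n : ℝ)⁻¹ *
    (Real.exp (2 * τ * μ ^ 2) * Real.exp (-(2 * τ * (Real.log n - μ) ^ 2))) := by
  have hn0 : (0 : ℝ) ≤ n := by positivity
  rw [cf_eq, mul_pow, mul_pow, ← Real.rpow_natCast ((n : ℝ) ^ (-(1 / 2) : ℝ)) 2,
    ← Real.rpow_mul hn0, ← Real.exp_nat_mul, ← Real.exp_nat_mul]
  have e1 : (-(1 / 2) : ℝ) * ((2 : ℕ) : ℝ) = -1 := by norm_num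
  rw [e1, Real.rpow_neg_one]
  congr 1
  congr 1
  · congr 1
    push_cast
    ring
  · congr 1
    push_cast
    ring

theorem gauss_le (τ y : ℝ) (hτ : 0 < τ) : Real.exp (-(τ * y ^ 2)) ≤ Real.exp (1 / τ - 2 * y) := by
  apply Real.exp_le_exp.2
  have h : 0 ≤ (τ * y - 1) ^ 2 / τ := by positivity
  have e : (τ * y - 1) ^ 2 / τ = τ * y ^ 2 - 2 * y + 1 / τ := by
    field_simp
    ring
  rw [e] at h
  linarith

theorem gauss_le_abs (τ y : ℝ) (hτ : 0 < τ) :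
    Real.exp (-(2 * τ * y ^ 2)) ≤ Real.exp (1 / (8 * τ)) * Real.exp (-|y|) := by
  rw [← Real.exp_add]
  apply Real.exp_le_exp.2
  have h : 0 ≤ (4 * τ * |y| - 1) ^ 2 / (8 * τ) := by positivity
  have e : (4 * τ * |y| - 1) ^ 2 / (8 * τ) = 2 * τ * |y| ^ 2 - |y| + 1 / (8 * τ) := by
    field_simp
    ring
  rw [e, sq_abs] at h
  linarith

theorem exp_abs_le (y : ℝ) : Real.exp (-|y|) * (1 + Real.exp y) ^ 2 ≤ 4 * Real.exp y := by
  have h0 := Real.exp_pos y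
  rcases le_total 0 y with h | h
  · rw [abs_of_nonneg h, Real.exp_neg]
    have h1 : 1 ≤ Real.exp y := Real.one_le_exp h
    rw [inv_mul_le_iff₀ h0]
    nlinarith
  · rw [abs_of_nonpos h, neg_neg]
    have h1 : Real.exp y ≤ 1 := Real.exp_le_one_iff.2 h
    nlinarith [mul_nonneg h0.le (sub_nonneg.2 h1)]

/-- the telescoping bound -/
theorem tele (X : ℝ) (hX : 0 < X) (K : ℕ) :
    ∑ h ∈ Finset.Icc 1 K, 4 * X / ((X + h) * (X + h - 1)) ≤ 4 := by
  have key : ∀ K : ℕ, ∑ h ∈ Finset.Icc 1 K, 4 * X / ((X + h) * (X + h - 1)) =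
      4 - 4 * X / (X + K) := by
    intro K
    induction K with
    | zero =>
      simp
      field_simp
      ring
    | succ K ih =>
      rw [Finset.sum_Icc_succ_top (by omega), ih]
      push_cast
      have h1 : X + K ≠ 0 := by positivity
      have h2 : X + (K + 1) ≠ 0 := by positivity
      have h3 : X + (K + 1) - 1 ≠ 0 := by
        have : X + ((K:ℝ) + 1) - 1 = X + K := by ring
        rw [this]; exact h1
      have h4 : X + ((K:ℝ) + 1) - 1 = X + K := by ring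
      rw [h4]
      field_simp
      ring
  rw [key]
  have : 0 ≤ 4 * X / (X + K) := by positivity
  linarith

/-- one term of the sum in (ii) -/
theorem term_le (τ μ : ℝ) (hτ : 0 < τ) (b h : ℕ) (hb : 1 ≤ b) (hh : 1 ≤ h) :
    cf τ μ (h * b) ^ 2 ≤ Real.exp (1 / (8 * τ)) * Real.exp (2 * τ * μ ^ 2) / b *
      (4 * (Real.exp μ / b) / ((Real.exp μ / b + h) * (Real.exp μ / b + h - 1))) := by
  have hb0 : (0 : ℝ) < b := by exact_mod_cast hb
  have hh0 : (0 : ℝ) < h := by exact_mod_cast hh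
  have hh1 : (1 : ℝ) ≤ h := by exact_mod_cast hh
  have hX : 0 < Real.exp μ / b := by positivity
  rw [cf_sq τ μ (h * b) (Nat.mul_pos hh hb)]
  push_cast
  set y : ℝ := Real.log ((h : ℝ) * b) - μ with hy
  set X : ℝ := Real.exp μ / b with hXd
  have h1 := gauss_le_abs τ y hτ
  have hey : Real.exp y = h / X := by
    rw [hy, Real.exp_sub, Real.exp_log (by positivity), hXd]
    field_simp
  have h2 := exp_abs_le y
  rw [hey] at h2
  have h3 : Real.exp (-|y|) ≤ 4 * X * h / (X + h) ^ 2 := by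
    rw [le_div_iff₀ (by positivity)]
    have e1 : (1 + (h:ℝ) / X) ^ 2 = (X + h) ^ 2 / X ^ 2 := by
      field_simp
    rw [e1] at h2
    have e2 : Real.exp (-|y|) * ((X + h) ^ 2 / X ^ 2) = Real.exp (-|y|) * (X + h) ^ 2 / X ^ 2 := by
      ring
    rw [e2, div_le_iff₀ (by positivity)] at h2
    have e3 : 4 * ((h:ℝ) / X) * X ^ 2 = 4 * X * h := by
      field_simp
    rw [e3] at h2
    exact h2
  have h4 : Real.exp (-|y|) ≤ h * (4 * X / ((X + h) * (X + h - 1))) := by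
    refine h3.trans ?_
    have e1 : (h:ℝ) * (4 * X / ((X + h) * (X + h - 1))) = 4 * X * h / ((X + h) * (X + h - 1)) := by
      ring
    rw [e1]
    apply div_le_div_of_nonneg_left (by positivity)
    · have : 0 < X + h - 1 := by linarith
      positivity
    · have : 0 < X + h := by positivity
      nlinarith
  calc ((h : ℝ) * b)⁻¹ * (Real.exp (2 * τ * μ ^ 2) * Real.exp (-(2 * τ * y ^ 2)))
      ≤ ((h : ℝ) * b)⁻¹ * (Real.exp (2 * τ * μ ^ 2) * (Real.exp (1 / (8 * τ)) *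
        (h * (4 * X / ((X + h) * (X + h - 1)))))) := by
        apply mul_le_mul_of_nonneg_left _ (by positivity)
        apply mul_le_mul_of_nonneg_left _ (by positivity)
        exact h1.trans (mul_le_mul_of_nonneg_left h4 (by positivity))
    _ = _ := by
        field_simp

theorem cf_le (τ μ : ℝ) (hτ : 0 < τ) (n : ℕ) (hn : 1 ≤ n) :
    cf τ μ n ≤ Real.exp (τ * μ ^ 2) * Real.exp (1 / τ) * Real.exp (2 * μ) *
      (n : ℝ) ^ (-(5 / 2) : ℝ) := by
  have hn0 : (0 : ℝ) < n := by exact_mod_cast hn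
  rw [cf_eq]
  have h1 := gauss_le τ (Real.log n - μ) hτ
  have h2 : Real.exp (1 / τ - 2 * (Real.log n - μ)) =
      Real.exp (1 / τ) * Real.exp (2 * μ) * (n : ℝ) ^ (-2 : ℝ) := by
    rw [Real.rpow_def_of_pos hn0, ← Real.exp_add, ← Real.exp_add]
    congr 1
    ring
  rw [h2] at h1
  calc (n : ℝ) ^ (-(1 / 2) : ℝ) *
        (Real.exp (τ * μ ^ 2) * Real.exp (-(τ * (Real.log n - μ) ^ 2)))
      ≤ (n : ℝ) ^ (-(1 / 2) : ℝ) * (Real.exp (τ * μ ^ 2) *
        (Real.exp (1 / τ) * Real.exp (2 * μ) * (n : ℝ) ^ (-2 : ℝ))) := by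
        apply mul_le_mul_of_nonneg_left _ (by positivity)
        exact mul_le_mul_of_nonneg_left h1 (by positivity)
    _ = Real.exp (τ * μ ^ 2) * Real.exp (1 / τ) * Real.exp (2 * μ) *
        ((n : ℝ) ^ (-(1 / 2) : ℝ) * (n : ℝ) ^ (-2 : ℝ)) := by ring
    _ = _ := by
        rw [← Real.rpow_add hn0]
        norm_num

theorem summ (p : ℝ) (hp : p < -1) : Summable fun n : ℕ => ((n + 1 : ℕ) : ℝ) ^ p :=
  (summable_nat_add_iff 1).2 (Real.summable_nat_rpow.2 hp)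

theorem part1 (τ μ : ℝ) (hτ : 0 < τ) (hμ : 1 ≤ μ) (K : ℕ) (hK : Real.exp (3 * μ) ≤ K) :
    Real.exp (-(2 * τ)) / 4 * Real.exp (2 * τ * μ ^ 2) ≤ ∑ n ∈ Finset.Icc 1 K, cf τ μ n ^ 2 := by
  have he0 := Real.exp_pos μ
  have he2 : 2 ≤ Real.exp μ := by
    have := Real.add_one_le_exp μ
    linarith
  have hsub : Finset.Icc ⌈Real.exp μ⌉₊ ⌊2 * Real.exp μ⌋₊ ⊆ Finset.Icc 1 K := by
    apply Finset.Icc_subset_Icc
    · exact Nat.one_le_ceil_iff.2 he0
    · have : (⌊2 * Real.exp μ⌋₊ : ℝ) ≤ K := by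
        refine (Nat.floor_le (by positivity)).trans (le_trans ?_ hK)
        have : Real.exp (3 * μ) = Real.exp μ * Real.exp μ * Real.exp μ := by
          rw [← Real.exp_add, ← Real.exp_add]
          congr 1
          ring
        rw [this]
        nlinarith
      exact_mod_cast this
  have hterm : ∀ n ∈ Finset.Icc ⌈Real.exp μ⌉₊ ⌊2 * Real.exp μ⌋₊,
      (2 * Real.exp μ)⁻¹ * (Real.exp (2 * τ * μ ^ 2) * Real.exp (-(2 * τ))) ≤ cf τ μ n ^ 2 := by
    intro n hn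
    have hn1 := Finset.mem_Icc.1 (hsub hn)
    obtain ⟨h1, h2⟩ := Finset.mem_Icc.1 hn
    have h3 : Real.exp μ ≤ n := Nat.ceil_le.1 h1
    have h4 : (n : ℝ) ≤ 2 * Real.exp μ := (Nat.le_floor_iff (by positivity)).1 h2
    have hn0 : (0 : ℝ) < n := lt_of_lt_of_le he0 h3
    rw [cf_sq τ μ n hn1.1]
    have h5 : 0 ≤ Real.log n - μ := by
      have := Real.log_le_log he0 h3
      rw [Real.log_exp] at this
      linarith
    have h6 : Real.log n - μ ≤ 1 := by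
      have := Real.log_le_log hn0 h4
      rw [Real.log_mul (by norm_num) he0.ne', Real.log_exp] at this
      have h7 : Real.log 2 ≤ 1 := by
        have := Real.log_two_lt_d9
        linarith
      linarith
    apply mul_le_mul
    · exact inv_anti₀ hn0 h4
    · apply mul_le_mul_of_nonneg_left _ (by positivity)
      apply Real.exp_le_exp.2
      have : (Real.log n - μ) ^ 2 ≤ 1 := by nlinarith
      nlinarith
    · positivity
    · positivity
  have hcard : Real.exp μ / 2 ≤ ((Finset.Icc ⌈Real.exp μ⌉₊ ⌊2 * Real.exp μ⌋₊).card : ℝ) := by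
    rw [Nat.card_Icc]
    have h1 : (⌈Real.exp μ⌉₊ : ℝ) < Real.exp μ + 1 := Nat.ceil_lt_add_one he0.le
    have h2 : 2 * Real.exp μ < ⌊2 * Real.exp μ⌋₊ + 1 := Nat.lt_floor_add_one _
    have h3 : ⌈Real.exp μ⌉₊ ≤ ⌊2 * Real.exp μ⌋₊ + 1 := by
      have : (⌈Real.exp μ⌉₊ : ℝ) ≤ ⌊2 * Real.exp μ⌋₊ + 1 := by linarith
      exact_mod_cast this
    rw [Nat.cast_sub h3]
    push_cast
    linarith
  calc Real.exp (-(2 * τ)) / 4 * Real.exp (2 * τ * μ ^ 2)
      = Real.exp μ / 2 *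
        ((2 * Real.exp μ)⁻¹ * (Real.exp (2 * τ * μ ^ 2) * Real.exp (-(2 * τ)))) := by
        field_simp
        norm_num
    _ ≤ ((Finset.Icc ⌈Real.exp μ⌉₊ ⌊2 * Real.exp μ⌋₊).card : ℝ) *
        ((2 * Real.exp μ)⁻¹ * (Real.exp (2 * τ * μ ^ 2) * Real.exp (-(2 * τ)))) :=
        mul_le_mul_of_nonneg_right hcard (by positivity)
    _ = ∑ n ∈ Finset.Icc ⌈Real.exp μ⌉₊ ⌊2 * Real.exp μ⌋₊,
        (2 * Real.exp μ)⁻¹ * (Real.exp (2 * τ * μ ^ 2) * Real.exp (-(2 * τ))) := by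
        rw [Finset.sum_const, nsmul_eq_mul]
    _ ≤ ∑ n ∈ Finset.Icc ⌈Real.exp μ⌉₊ ⌊2 * Real.exp μ⌋₊, cf τ μ n ^ 2 :=
        Finset.sum_le_sum hterm
    _ ≤ ∑ n ∈ Finset.Icc 1 K, cf τ μ n ^ 2 :=
        Finset.sum_le_sum_of_subset_of_nonneg hsub fun n _ _ => sq_nonneg _

theorem part2 (τ μ : ℝ) (hτ : 0 < τ) (b : ℕ) (hb : 1 ≤ b) (K : ℕ) :
    ∑ h ∈ Finset.Icc 1 K, cf τ μ (h * b) ^ 2 ≤
      4 * Real.exp (1 / (8 * τ)) * Real.exp (2 * τ * μ ^ 2) / b := by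
  have hb0 : (0 : ℝ) < b := by exact_mod_cast hb
  have hX : 0 < Real.exp μ / b := by positivity
  calc ∑ h ∈ Finset.Icc 1 K, cf τ μ (h * b) ^ 2
      ≤ ∑ h ∈ Finset.Icc 1 K, Real.exp (1 / (8 * τ)) * Real.exp (2 * τ * μ ^ 2) / b *
      (4 * (Real.exp μ / b) / ((Real.exp μ / b + h) * (Real.exp μ / b + h - 1))) :=
        Finset.sum_le_sum fun h hh => term_le τ μ hτ b h hb (Finset.mem_Icc.1 hh).1
    _ = Real.exp (1 / (8 * τ)) * Real.exp (2 * τ * μ ^ 2) / b * ∑ h ∈ Finset.Icc 1 K,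
      (4 * (Real.exp μ / b) / ((Real.exp μ / b + h) * (Real.exp μ / b + h - 1))) := by
        rw [Finset.mul_sum]
    _ ≤ Real.exp (1 / (8 * τ)) * Real.exp (2 * τ * μ ^ 2) / b * 4 :=
        mul_le_mul_of_nonneg_left (tele _ hX K) (by positivity)
    _ = _ := by ring

theorem part3 (τ μ : ℝ) (hτ : 0 < τ) : Summable fun n : ℕ => cf τ μ (n + 1) := by
  refine Summable.of_nonneg_of_le (fun n => cf_nonneg _ _ _)
    (fun n => cf_le τ μ hτ (n + 1) (by omega)) ?_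
  exact (summ _ (by norm_num)).mul_left _

theorem part4 (τ μ : ℝ) (hτ : 0 < τ) (K : ℕ) (hK : Real.exp (3 * μ) ≤ K) :
    ∑' n : ℕ, (if K ≤ n then cf τ μ (n + 1) else 0) ≤
      Real.exp (1 / τ) * (∑' n : ℕ, ((n + 1 : ℕ) : ℝ) ^ (-(3 / 2) : ℝ)) *
        Real.exp (τ * μ ^ 2) * Real.exp (-μ) := by
  have hs := summ (-(3 / 2)) (by norm_num)
  have hle : ∀ n : ℕ, (if K ≤ n then cf τ μ (n + 1) else 0) ≤
      Real.exp (τ * μ ^ 2) * Real.exp (1 / τ) * Real.exp (-μ) *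
        ((n + 1 : ℕ) : ℝ) ^ (-(3 / 2) : ℝ) := by
    intro n
    split_ifs with h
    · refine (cf_le τ μ hτ (n + 1) (by omega)).trans ?_
      have hn0 : (0 : ℝ) < ((n + 1 : ℕ) : ℝ) := by positivity
      have h1 : Real.exp (3 * μ) ≤ ((n + 1 : ℕ) : ℝ) := by
        refine hK.trans ?_
        have : K ≤ n + 1 := by omega
        exact_mod_cast this
      have h2 : ((n + 1 : ℕ) : ℝ) ^ (-(5 / 2) : ℝ) =
          ((n + 1 : ℕ) : ℝ) ^ (-(3 / 2) : ℝ) * (((n + 1 : ℕ) : ℝ))⁻¹ := by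
        rw [← Real.rpow_neg_one, ← Real.rpow_add hn0]
        norm_num
      have h3 : (((n + 1 : ℕ) : ℝ))⁻¹ ≤ Real.exp (-(3 * μ)) := by
        rw [Real.exp_neg]
        exact inv_anti₀ (Real.exp_pos _) h1
      rw [h2]
      calc Real.exp (τ * μ ^ 2) * Real.exp (1 / τ) * Real.exp (2 * μ) *
          (((n + 1 : ℕ) : ℝ) ^ (-(3 / 2) : ℝ) * (((n + 1 : ℕ) : ℝ))⁻¹)
          ≤ Real.exp (τ * μ ^ 2) * Real.exp (1 / τ) * Real.exp (2 * μ) *
          (((n + 1 : ℕ) : ℝ) ^ (-(3 / 2) : ℝ) * Real.exp (-(3 * μ))) := by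
            apply mul_le_mul_of_nonneg_left _ (by positivity)
            exact mul_le_mul_of_nonneg_left h3 (by positivity)
        _ = Real.exp (τ * μ ^ 2) * Real.exp (1 / τ) * (Real.exp (2 * μ) * Real.exp (-(3 * μ))) *
          ((n + 1 : ℕ) : ℝ) ^ (-(3 / 2) : ℝ) := by ring
        _ = _ := by
            rw [← Real.exp_add (2 * μ) (-(3 * μ)), show 2 * μ + -(3 * μ) = -μ by ring]
    · positivity
  have hs2 : Summable fun n : ℕ => Real.exp (τ * μ ^ 2) * Real.exp (1 / τ) * Real.exp (-μ) *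
        ((n + 1 : ℕ) : ℝ) ^ (-(3 / 2) : ℝ) := hs.mul_left _
  have hs1 : Summable fun n : ℕ => (if K ≤ n then cf τ μ (n + 1) else 0) := by
    refine Summable.of_nonneg_of_le (fun n => ?_) hle hs2
    split_ifs
    · exact cf_nonneg _ _ _
    · exact le_rfl
  refine (Summable.tsum_le_tsum hle hs1 hs2).trans (le_of_eq ?_)
  rw [tsum_mul_left]
  ring

end M1x

open M1x

theorem taskM1 : TaskM1 := by
  intro τ hτ
  have hZ : 0 ≤ ∑' n : ℕ, ((n + 1 : ℕ) : ℝ) ^ (-(3 / 2) : ℝ) :=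
    tsum_nonneg fun n => by positivity
  refine ⟨4 * Real.exp (1 / (8 * τ)) +
    Real.exp (1 / τ) * (∑' n : ℕ, ((n + 1 : ℕ) : ℝ) ^ (-(3 / 2) : ℝ)),
    Real.exp (-(2 * τ)) / 4, by positivity, by positivity, ?_⟩
  intro μ hμ
  refine ⟨fun K hK => part1 τ μ hτ hμ K hK, fun b hb K => ?_, part3 τ μ hτ, fun K hK => ?_⟩
  · refine (part2 τ μ hτ b hb K).trans ?_
    have hb0 : (0 : ℝ) < b := by exact_mod_cast hb
    apply div_le_div_of_nonneg_right _ hb0.le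
    apply mul_le_mul_of_nonneg_right _ (by positivity)
    have : 0 ≤ Real.exp (1 / τ) * (∑' n : ℕ, ((n + 1 : ℕ) : ℝ) ^ (-(3 / 2) : ℝ)) := by positivity
    linarith
  · refine (part4 τ μ hτ K hK).trans ?_
    apply mul_le_mul_of_nonneg_right _ (by positivity)
    apply mul_le_mul_of_nonneg_right _ (by positivity)
    have : 0 < 4 * Real.exp (1 / (8 * τ)) := by positivity
    linarith

end Pool.Agent.H902R3.XI
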